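import Pool.Agent.Helper82.EN.Basic

set_option autoImplicit false

/-! # ENCODING BY TM: fronts of steady motions, stages of the hard string (used by CLV, CLU) -/

namespace Pool.Agent.Helper82.EN

/-! ## Maxima of a path -/

/-- maximum of `p` on `[a, b)` (`0` if this is empty) -/
noncomputable def fm (p : ℕ → ℤ) (a b : ℕ) : ℤ :=
  if h : (Finset.Ico a b).Nonempty then (Finset.Ico a b).sup' h p else 0

theorem fm_le {p : ℕ → ℤ} {a b t : ℕ} (h1 : a ≤ t) (h2 : t < b) : p t ≤ fm p a b := by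
  have hm : t ∈ Finset.Ico a b := Finset.mem_Ico.2 ⟨h1, h2⟩
  unfold fm
  rw [dif_pos ⟨t, hm⟩]
  exact Finset.le_sup' p hm

theorem fm_att {p : ℕ → ℤ} {a b : ℕ} (h : a < b) : ∃ t, a ≤ t ∧ t < b ∧ p t = fm p a b := by
  have hn : (Finset.Ico a b).Nonempty := ⟨a, Finset.mem_Ico.2 ⟨le_refl a, h⟩⟩
  obtain ⟨t, ht, he⟩ := Finset.exists_mem_eq_sup' hn p
  refine ⟨t, (Finset.mem_Ico.1 ht).1, (Finset.mem_Ico.1 ht).2, ?_⟩
  unfold fm
  rw [dif_pos hn]
  exact he.symm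

theorem fm_mono_right {p : ℕ → ℤ} {a b b' : ℕ} (h : a < b) (hb : b ≤ b') :
    fm p a b ≤ fm p a b' := by
  obtain ⟨t, h1, h2, h3⟩ := fm_att (p := p) h
  rw [← h3]
  exact fm_le h1 (by omega)

theorem fm_anti_left {p : ℕ → ℤ} {a a' b : ℕ} (h : a ≤ a') (hb : a' < b) :
    fm p a' b ≤ fm p a b := by
  obtain ⟨t, h1, h2, h3⟩ := fm_att (p := p) hb
  rw [← h3]
  exact fm_le (by omega) h2

/-! ## Paths with unit moves -/

theorem lip {p : ℕ → ℤ} (hp : ∀ t, |p (t + 1) - p t| ≤ 1) (a b : ℕ) (h : a ≤ b) :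
    p b - p a ≤ (b : ℤ) - a ∧ p a - p b ≤ (b : ℤ) - a := by
  induction b, h using Nat.le_induction with
  | base => simp
  | succ b h ih =>
    have h1 := abs_le.1 (hp b)
    push_cast
    constructor <;> linarith [h1.1, h1.2, ih.1, ih.2]

theorem ivt_up {p : ℕ → ℤ} (hp : ∀ t, |p (t + 1) - p t| ≤ 1) (a b : ℕ) (h : a ≤ b) (z : ℤ)
    (h1 : p a ≤ z) (h2 : z ≤ p b) : ∃ u, a ≤ u ∧ u ≤ b ∧ p u = z := by
  induction b, h using Nat.le_induction with
  | base => exact ⟨a, le_refl a, le_refl a, le_antisymm h1 h2⟩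
  | succ b h ih =>
    by_cases h3 : z ≤ p b
    · obtain ⟨u, u1, u2, u3⟩ := ih h3
      exact ⟨u, u1, by omega, u3⟩
    · have h4 := abs_le.1 (hp b)
      exact ⟨b + 1, by omega, le_refl _, by have := h4.2; omega⟩

theorem ivt_down {p : ℕ → ℤ} (hp : ∀ t, |p (t + 1) - p t| ≤ 1) (a b : ℕ) (h : a ≤ b) (z : ℤ)
    (h1 : z ≤ p a) (h2 : p b ≤ z) : ∃ u, a ≤ u ∧ u ≤ b ∧ p u = z := by
  have hq : ∀ t, |(-p (t + 1)) - (-p t)| ≤ 1 := fun t => by
    have := abs_le.1 (hp t)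
    rw [abs_le]
    constructor <;> linarith [this.1, this.2]
  obtain ⟨u, u1, u2, u3⟩ := ivt_up (p := fun t => -p t) hq a b h (-z) (neg_le_neg h1)
    (neg_le_neg h2)
  exact ⟨u, u1, u2, neg_inj.1 u3⟩

/-- the front of a steady motion to the right -/
theorem clv_front {p : ℕ → ℤ} {κ t₀ t₃ a b : ℕ} (hp : ∀ t, |p (t + 1) - p t| ≤ 1)
    (hS : Stead p κ 1 t₀ t₃) (h0 : t₀ < a) (hab : a < b) (hb : b ≤ t₃)
    (hl : a + (60 * κ + 6) ≤ b) :
    (b : ℤ) - a ≤ 6 * (fm p t₀ b - fm p t₀ a) ∧ fm p t₀ b - fm p t₀ a ≤ (b : ℤ) - a := by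
  constructor
  · obtain ⟨t, h1, h2, h3⟩ := fm_att (p := p) h0
    have h4 : p (b - 1) ≤ fm p t₀ b := fm_le (by omega) (by omega)
    have h5 := hS t a h1 (by omega) (by omega)
    have h6 := hS a (b - 1) (by omega) (by omega) (by omega)
    rw [h3] at h5
    have h7 : ((b - 1 : ℕ) : ℤ) = (b : ℤ) - 1 := by omega
    rw [h7] at h6
    omega
  · obtain ⟨t, h1, h2, h3⟩ := fm_att (p := p) (show t₀ < b by omega)
    rw [← h3]
    by_cases h4 : t < a
    · have h5 : p t ≤ fm p t₀ a := fm_le h1 h4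
      omega
    · have h5 : p (a - 1) ≤ fm p t₀ a := fm_le (by omega) (by omega)
      have h6 := (lip hp (a - 1) t (by omega)).1
      have h7 : ((a - 1 : ℕ) : ℤ) = (a : ℤ) - 1 := by omega
      rw [h7] at h6
      omega

/-- the cells passed for the first time in the blocks `k, k + 1, k + 2` -/
theorem reg_iff {p : ℕ → ℤ} (hp : ∀ t, |p (t + 1) - p t| ≤ 1) {S : ℕ → ℕ} {k : ℕ}
    (h1 : S (k - 13) < S k) (h2 : S k < S (k + 3)) (z : ℤ) :
    Reg p S k 1 z ↔ fm p (S (k - 13)) (S k) < z ∧ z ≤ fm p (S (k - 13)) (S (k + 3)) := by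
  unfold Reg
  constructor
  · rintro ⟨h3, t, h4, h5, h6⟩
    constructor
    · obtain ⟨u, u1, u2, u3⟩ := fm_att (p := p) h1
      have := h3 u u1 u2
      linarith
    · rw [← h6]
      exact fm_le (by omega) h5
  · rintro ⟨h3, h4⟩
    have h5 : ∀ t, S (k - 13) ≤ t → t < S k → p t < z := fun t t1 t2 =>
      lt_of_le_of_lt (fm_le t1 t2) h3
    refine ⟨fun t t1 t2 => by have := h5 t t1 t2; linarith, ?_⟩
    obtain ⟨t, t1, t2, t3⟩ := fm_att (p := p) (show S (k - 13) < S (k + 3) by omega)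
    obtain ⟨u, u1, u2, u3⟩ := ivt_up hp (S (k - 13)) t t1 z
      (le_of_lt (h5 _ (le_refl _) h1)) (by rw [t3]; exact h4)
    refine ⟨u, ?_, by omega, u3⟩
    by_contra hu
    have := h5 u u1 (by omega)
    omega

/-- a number lies between two consecutive terms -/
theorem stage_of (f : ℕ → ℕ) (a b u : ℕ) (hab : a ≤ b) (h1 : f a ≤ u) (h2 : u < f b) :
    ∃ j, a ≤ j ∧ j < b ∧ f j ≤ u ∧ u < f (j + 1) := by
  induction b, hab using Nat.le_induction with
  | base => omega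
  | succ b h ih =>
    by_cases h3 : u < f b
    · obtain ⟨j, j1, j2, j3, j4⟩ := ih h3
      exact ⟨j, j1, by omega, j3, j4⟩
    · exact ⟨b, h, by omega, by omega, h2⟩

/-! ## Stages -/

namespace Pa

variable (P : Pa)

theorem tau_succ (i : ℕ) : P.tau (i + 1) = P.tau i + P.len i := by
  simp only [tau, Finset.sum_range_succ]

theorem tau_mono {i j : ℕ} (h : i ≤ j) : P.tau i ≤ P.tau j := by
  induction j, h using Nat.le_induction with
  | base => exact le_refl _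
  | succ j h ih => rw [tau_succ]; omega

theorem S_eq (n k : ℕ) (h : 1 ≤ k) : P.S n k = n + P.tau (P.nb * (k - 1)) := by
  unfold S
  rw [if_neg (by omega)]

theorem S_succ (n k : ℕ) : P.S n (k + 1) = n + P.tau (P.nb * k) := by
  rw [S_eq P n (k + 1) (by omega), Nat.add_sub_cancel]

theorem code_bd (g : ℕ) : 1 ≤ P.code g ∧ P.code g ≤ 4 := by
  unfold code
  split_ifs
  · omega
  · omega
  · omega
  · omega

theorem cls_le (i : ℕ) : P.cls i ≤ 4 := by
  unfold cls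
  split_ifs
  · exact (P.code_bd _).2
  · omega

theorem cls_ne (i : ℕ) : P.cls i ≠ 0 ↔ i % 3 = 0 := by
  unfold cls
  split_ifs with h
  · have := (P.code_bd (i / 3)).1
    constructor
    · intro _; exact h
    · intro _; omega
  · constructor
    · intro h'; exact absurd rfl h'
    · intro h'; exact absurd h' h

theorem nb_pos : 0 < P.nb := by unfold nb; omega

theorem nb_mod (m : ℕ) : P.nb * m % 3 = 0 := by
  unfold nb
  rw [mul_assoc]
  omega

theorem cls_nb (m : ℕ) : P.cls (P.nb * m) = 4 := by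
  unfold cls
  rw [if_pos (P.nb_mod m)]
  have h : P.nb * m / 3 = (4 * P.D + 3) * m := by
    unfold nb
    rw [mul_assoc]
    omega
  unfold code
  rw [h, if_pos (Nat.mul_mod_right _ _)]

theorem ell_zero : P.ell 0 = P.Lam := by simp [ell]

theorem ell_growth (hD : 1 ≤ P.D) (c c' : ℕ) (h : c < c') (h' : c' ≤ 4) :
    100 * (P.ell c : ℤ) ≤ P.ell c' := by
  have h1 : P.Lam ≤ P.D * P.Lam := Nat.le_mul_of_pos_left _ hD
  have e0 : P.ell 0 = P.Lam := by simp [ell]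
  have e1 : P.ell 1 = 100 * P.Lam := by simp [ell]
  have e2 : P.ell 2 = 10000 * P.Lam := by simp [ell]
  have e3 : P.ell 3 = 1000000 * P.Lam := by simp [ell]
  have e4 : P.ell 4 = 100000000 * (P.D * P.Lam) := by simp [ell]
  have : 100 * P.ell c ≤ P.ell c' := by
    interval_cases c' <;> interval_cases c <;> simp only [e0, e1, e2, e3, e4] <;> omega
  exact_mod_cast this

end Pa

section
variable {Q : Type}

/-- the outputs in a stage -/
theorem perOut_stage {P : Pa} {M : Mc Q} {c : ℕ → Cf Q} {n : ℕ} (h : P.Run M c n) (i : ℕ)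
    (hi : i < P.Nst) : PerOut P M c (P.seed i) (n + P.tau i) (n + P.tau (i + 1)) := by
  intro t h1 h2 hD
  rw [P.tau_succ] at h2
  have h3 := h.outp i hi (t - (n + P.tau i)) (by omega)
  have h4 : n + P.tau i + (t - (n + P.tau i)) = t := by omega
  rw [h4] at h3
  rw [h3]
  unfold Pa.letter
  rw [dif_pos hD]

/-- the path of the head moves by at most one -/
theorem path_unit {P : Pa} {M : Mc Q} {c : ℕ → Cf Q} {n : ℕ} (h : P.Run M c n) (t : ℕ) :
    |(c (t + 1)).p - (c t).p| ≤ 1 := by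
  rw [h.step]
  exact abs_step M (c t)

end

/-- facts from BLK and `Ok`, in the form used here -/
structure BF (P : Pa) (n : ℕ) : Prop where
  D1 : 1 ≤ P.D
  S0 : P.S n 0 = 0
  L1 : 60 * P.kap + 6 ≤ P.Lam
  Lb : 100 * P.bet ≤ P.Lam
  b0 : 0 < P.bet
  len : ∀ i, P.Lam ≤ P.len i
  lt : ∀ {i j : ℕ}, i < j → n + P.tau i + P.Lam ≤ n + P.tau j
  sw : ∀ m, 1 ≤ m → (m - 1) % 3 ^ P.D ≠ 3 ^ P.D - 1 → P.sw (m + 1) = P.sw m
  seed : ∀ i, P.seed i = P.sw (i / P.nb + 1) ⟨i % 3, Nat.mod_lt _ (by norm_num)⟩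

theorem bf_of (hB : ST_BLK) {P : Pa} {K Δ n : ℕ} (hO : P.Ok K Δ) (hn : n ≤ K) : BF P n := by
  obtain ⟨h1, h2, h3, h4, h5, h6⟩ := hB P K Δ n hO hn
  have hlen : ∀ i, P.Lam ≤ P.len i := fun i => (h4 i).1
  have hlam := hO.hlam
  have hD : 1 ≤ P.D := by have := hO.hd; have := hO.hdD; omega
  have hbet : P.bet = P.D + 2 * P.kap + 2 := rfl
  refine ⟨hD, h1, by omega, by omega, by omega, hlen, ?_, h5, h6⟩
  intro i j hij
  have h7 : P.tau (i + 1) ≤ P.tau j := P.tau_mono hij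
  rw [P.tau_succ] at h7
  have := hlen i
  omega

/-- the seeds of the stages of consecutive good blocks `a, ..., b` -/
theorem seed_common {P : Pa} {n : ℕ} (hF : BF P n) {Q : Type} {M : Mc Q} {Δ a b : ℕ} (ha : 1 ≤ a)
    (hg : ∀ j, a ≤ j → j ≤ b → P.good M Δ j) (m : ℕ) (h1 : a ≤ m) (h2 : m ≤ b) :
    P.sw m = P.sw a := by
  induction m, h1 using Nat.le_induction with
  | base => rfl
  | succ m h ih =>
    rw [hF.sw m (by omega) (hg m h (by omega)).2.2.2]
    exact ih (by omega)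

/-- the seed of a stage of the blocks `a, ..., b` -/
theorem seed_stage {P : Pa} {n : ℕ} (hF : BF P n) {Q : Type} {M : Mc Q} {Δ a b : ℕ} (ha : 1 ≤ a)
    (hg : ∀ j, a ≤ j → j ≤ b → P.good M Δ j) (i : ℕ) (h1 : P.nb * (a - 1) ≤ i)
    (h2 : i < P.nb * b) :
    P.seed i = P.sw a ⟨i % 3, Nat.mod_lt _ (by norm_num)⟩ := by
  rw [hF.seed i]
  have h3 : a ≤ i / P.nb + 1 := by
    have : a - 1 ≤ i / P.nb := (Nat.le_div_iff_mul_le P.nb_pos).2 (by rw [mul_comm]; exact h1)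
    omega
  have h4 : i / P.nb + 1 ≤ b := by
    have : i / P.nb < b := (Nat.div_lt_iff_lt_mul P.nb_pos).2 (by rw [mul_comm]; exact h2)
    omega
  rw [seed_common hF ha hg _ h3 h4]

/-- three consecutive stages of consecutive good blocks have the three seeds of the block -/
theorem seed_three {P : Pa} {n : ℕ} (hF : BF P n) {Q : Type} {M : Mc Q} {Δ a b : ℕ} (ha : 1 ≤ a)
    (hg : ∀ j, a ≤ j → j ≤ b → P.good M Δ j) (i : ℕ) (h1 : P.nb * (a - 1) ≤ i)
    (h2 : i + 2 < P.nb * b) (R : P.Wd → Prop) (hR : ∀ e ≤ 2, R (P.seed (i + e))) (r : Fin 3) :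
    R (P.sw a r) := by
  have h3 : ∀ e ≤ 2, P.seed (i + e) = P.sw a ⟨(i + e) % 3, Nat.mod_lt _ (by norm_num)⟩ :=
    fun e he => seed_stage hF ha hg (i + e) (by omega) (by omega)
  have h4 : ∃ e ≤ 2, (i + e) % 3 = r.1 := by
    have := r.2
    refine ⟨(r.1 + 2 * (i % 3)) % 3, by omega, by omega⟩
  obtain ⟨e, e1, e2⟩ := h4
  have h5 := hR e e1
  rw [h3 e e1] at h5
  have h6 : (⟨(i + e) % 3, Nat.mod_lt _ (by norm_num)⟩ : Fin 3) = r := Fin.ext e2
  rw [h6] at h5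
  exact h5

end Pool.Agent.Helper82.EN
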